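import Pool.Agent.Helper98.ZB.Stmts

/-!
Sheet ZB (MP_7a8f48_an): row ZOE, eigenfunctions are orthogonal to the Moebius function.
-/

open MeasureTheory Filter Topology Finset
open scoped ComplexConjugate

namespace Pool.Agent.Helper94.ZB

open Pool.Agent.Helper98.ZA (Un)
open Pool.Agent.Helper98.ZB
open Pool.Agent.Helper16.MD (MS)

theorem oe_congr {Y : Type} [MetricSpace Y] [MeasurableSpace Y] {ν : Measure Y} {S : Y → Y}
    {G G' : Y → ℂ} {η : ℝ} (h : G =ᵐ[ν] G') (hG : Oe ν S G η) : Oe ν S G' η := by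
  obtain ⟨δ, hδ, hH⟩ := hG
  refine ⟨δ, hδ, fun H h1 => hH H (le_trans (le_of_eq ?_) h1)⟩
  refine integral_congr_ae ?_
  filter_upwards [h] with y hy
  rw [hy]

/-- a complex number of modulus one which is not a root of unity -/
theorem no_root {l : ℂ} (hl : ‖l‖ = 1) (h : ∀ m : ℕ, 1 ≤ m → l ^ m ≠ 1) {p q : ℕ} (hpq : p ≠ q) :
    l ^ p * conj (l ^ q) ≠ 1 := by
  have h0 : l ≠ 0 := by
    intro h0
    rw [h0, norm_zero] at hl
    exact zero_ne_one hl
  have h1 : ∀ n : ℕ, l ^ n * conj (l ^ n) = 1 := by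
    intro n
    rw [Complex.mul_conj, Complex.normSq_eq_norm_sq, norm_pow, hl]
    simp
  intro hc
  have h2 : l ^ p = l ^ q := by
    calc l ^ p = l ^ p * (l ^ q * conj (l ^ q)) := by rw [h1, mul_one]
      _ = l ^ p * conj (l ^ q) * l ^ q := by ring
      _ = l ^ q := by rw [hc, one_mul]
  rcases Nat.lt_or_gt_of_ne hpq with h3 | h3
  · refine h (q - p) (by omega) ?_
    have h4 : l ^ q = l ^ p * l ^ (q - p) := by
      rw [← pow_add]
      congr 1
      omega
    have h5 : l ^ p * l ^ (q - p) = l ^ p * 1 := by rw [← h4, h2, mul_one]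
    exact mul_left_cancel₀ (pow_ne_zero p h0) h5
  · refine h (p - q) (by omega) ?_
    have h4 : l ^ p = l ^ q * l ^ (p - q) := by
      rw [← pow_add]
      congr 1
      omega
    have h5 : l ^ q * l ^ (p - q) = l ^ q * 1 := by rw [← h4, h2, mul_one]
    exact mul_left_cancel₀ (pow_ne_zero q h0) h5

theorem st_ZOE (hZOP : Pool.Agent.Helper98.ZB.ST_ZOP) (hZOK : Pool.Agent.Helper98.ZB.ST_ZOK)
    (hZAC : Pool.Agent.Helper98.ZA.ST_ZAC) : Pool.Agent.Helper98.ZB.ST_ZOE := by
  intro Y _ _ _ _ ν _ S hS hU v l hv hl hev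
  have hmp : MeasurePreserving S ν ν := hU.1
  have hit : ∀ n : ℕ, ∀ᵐ y ∂ν, v (S^[n] y) = l ^ n * v y := by
    intro n
    induction n with
    | zero => exact Eventually.of_forall fun y => by simp
    | succ n ih =>
      filter_upwards [ih, (hmp.iterate n).quasiMeasurePreserving.ae hev] with y h1 h2
      rw [Function.iterate_succ_apply', h2, h1, pow_succ]
      ring
  by_cases hroot : ∃ m : ℕ, 1 ≤ m ∧ l ^ m = 1
  · obtain ⟨m, hm, hlm⟩ := hroot
    refine hZOP Y ν S hS hU m v hm hv ?_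
    filter_upwards [hit m] with y hy
    rw [hy, hlm, one_mul]
  · push Not at hroot
    have hE : Ergodic S ν := (hZAC Y ν S hS.measurable hU).1
    -- the measurable version
    obtain ⟨v₀, hv₀m, hvv₀⟩ : ∃ v₀ : Y → ℂ, Measurable v₀ ∧ v =ᵐ[ν] v₀ :=
      ⟨hv.1.mk v, hv.1.stronglyMeasurable_mk.measurable, hv.1.ae_eq_mk⟩
    have hev₀ : ∀ᵐ y ∂ν, v₀ (S y) = l * v₀ y := by
      filter_upwards [hev, hvv₀, hmp.quasiMeasurePreserving.ae hvv₀] with y h1 h2 h3
      rw [← h3, ← h2, h1]
    have hnorm : (fun y => ‖v₀ y‖) ∘ S =ᵐ[ν] fun y => ‖v₀ y‖ := by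
      filter_upwards [hev₀] with y hy
      show ‖v₀ (S y)‖ = ‖v₀ y‖
      rw [hy, norm_mul, hl, one_mul]
    obtain ⟨b, hb⟩ := hE.ae_eq_const_of_ae_eq_comp_ae hv₀m.norm.aestronglyMeasurable hnorm
    -- the bounded version
    obtain ⟨w, hw⟩ : ∃ w : Y → ℂ, w = fun y => if ‖v₀ y‖ ≤ b then v₀ y else 0 := ⟨_, rfl⟩
    have hwm : Measurable w := by
      rw [hw]
      exact Measurable.ite (measurableSet_le hv₀m.norm measurable_const) hv₀m measurable_const
    have hvw : v₀ =ᵐ[ν] w := by
      filter_upwards [hb] with y hy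
      rw [hw]
      exact (if_pos (le_of_eq hy)).symm
    have hb0 : 0 ≤ b := by
      obtain ⟨y, hy⟩ := hb.exists
      have : ‖v₀ y‖ = b := hy
      rw [← this]
      exact norm_nonneg _
    have hwb : ∀ y, ‖w y‖ ≤ b := by
      intro y
      rw [hw]
      by_cases h : ‖v₀ y‖ ≤ b
      · simp only [if_pos h]
        exact h
      · simp only [if_neg h, norm_zero]
        exact hb0
    have hwit : ∀ n : ℕ, ∀ᵐ y ∂ν, w (S^[n] y) = l ^ n * w y := by
      intro n
      filter_upwards [hit n, hvv₀.trans hvw,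
        (hmp.iterate n).quasiMeasurePreserving.ae (hvv₀.trans hvw)] with y h1 h2 h3
      rw [← h3, ← h2, h1]
    intro η hη
    refine oe_congr (hvv₀.trans hvw).symm ?_
    refine hZOK Y ν S hS hU w b η 1 0 hwm hwb hη le_rfl ?_
    intro p q hp hq hpq _ _ κ hκ hκe
    rw [mul_one, mul_one] at hκe
    have hκm := hκe.toMeasurePreserving
    -- the marginals
    have m1 : MeasurePreserving S^[p] (κ.map Prod.fst) (κ.map Prod.fst) := by
      refine ⟨hS.measurable.iterate p, ?_⟩
      rw [Measure.map_map (hS.measurable.iterate p) measurable_fst]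
      have : S^[p] ∘ (Prod.fst : Y × Y → Y) = Prod.fst ∘ (Prod.map S^[p] S^[q]) := rfl
      rw [this, ← Measure.map_map measurable_fst hκm.measurable, hκm.map_eq]
    have m2 : MeasurePreserving S^[q] (κ.map Prod.snd) (κ.map Prod.snd) := by
      refine ⟨hS.measurable.iterate q, ?_⟩
      rw [Measure.map_map (hS.measurable.iterate q) measurable_snd]
      have : S^[q] ∘ (Prod.snd : Y × Y → Y) = Prod.snd ∘ (Prod.map S^[p] S^[q]) := rfl
      rw [this, ← Measure.map_map measurable_snd hκm.measurable, hκm.map_eq]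
    have ac1 : κ.map Prod.fst ≪ ν := by
      have hP : IsProbabilityMeasure (κ.map Prod.fst) :=
        Measure.isProbabilityMeasure_map measurable_fst.aemeasurable
      have h1 := (hZAC Y ν S hS.measurable hU).2 p (κ.map Prod.fst) hp.one_lt.le hP m1
      refine Measure.AbsolutelyContinuous.mk fun s hs h0 => ?_
      have h2 := h1 s hs
      rw [h0, mul_zero] at h2
      exact nonpos_iff_eq_zero.1 h2
    have ac2 : κ.map Prod.snd ≪ ν := by
      have hP : IsProbabilityMeasure (κ.map Prod.snd) :=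
        Measure.isProbabilityMeasure_map measurable_snd.aemeasurable
      have h1 := (hZAC Y ν S hS.measurable hU).2 q (κ.map Prod.snd) hq.one_lt.le hP m2
      refine Measure.AbsolutelyContinuous.mk fun s hs h0 => ?_
      have h2 := h1 s hs
      rw [h0, mul_zero] at h2
      exact nonpos_iff_eq_zero.1 h2
    have e1 : ∀ᵐ z ∂κ, w (S^[p] z.1) = l ^ p * w z.1 :=
      ae_of_ae_map measurable_fst.aemeasurable (ac1.ae_le (hwit p))
    have e2 : ∀ᵐ z ∂κ, w (S^[q] z.2) = l ^ q * w z.2 :=
      ae_of_ae_map measurable_snd.aemeasurable (ac2.ae_le (hwit q))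
    obtain ⟨I, hI⟩ : ∃ I, I = ∫ z, w z.1 * conj (w z.2) ∂κ := ⟨_, rfl⟩
    have hwm2 : Measurable (fun z : Y × Y => w z.1 * conj (w z.2)) :=
      (hwm.comp measurable_fst).mul
        (Complex.continuous_conj.measurable.comp (hwm.comp measurable_snd))
    have h3 : I = l ^ p * conj (l ^ q) * I := by
      have h4 : ∫ z, w z.1 * conj (w z.2) ∂κ =
          ∫ z, w (S^[p] z.1) * conj (w (S^[q] z.2)) ∂κ := by
        have h5 : ∫ z, w z.1 * conj (w z.2) ∂(κ.map (Prod.map S^[p] S^[q])) =
            ∫ z, w (S^[p] z.1) * conj (w (S^[q] z.2)) ∂κ := by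
          rw [integral_map hκm.measurable.aemeasurable hwm2.aestronglyMeasurable]
          rfl
        rw [hκm.map_eq] at h5
        exact h5
      rw [hI, ← integral_const_mul]
      nth_rewrite 1 [h4]
      refine integral_congr_ae ?_
      filter_upwards [e1, e2] with z h5 h6
      rw [h5, h6, map_mul]
      ring
    have hI0 : I = 0 := by
      have h4 : (1 - l ^ p * conj (l ^ q)) * I = 0 := by
        linear_combination h3
      rcases mul_eq_zero.1 h4 with h5 | h5
      · exact absurd (sub_eq_zero.1 h5).symm (no_root hl hroot hpq)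
      · exact h5
    rw [← hI, hI0, norm_zero]
    positivity

end Pool.Agent.Helper94.ZB
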