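import Pool.Agent.Helper98.ZB.Stmts

/-!
Sheet ZB (MP_7a8f48_an): row ZOP, periodic functions are orthogonal to the Moebius function.
-/

open MeasureTheory Filter Topology Finset
open scoped ComplexConjugate

namespace Pool.Agent.Helper94.ZB

open Pool.Agent.Helper98.ZA (Un)
open Pool.Agent.Helper98.ZB
open Pool.Agent.Helper16.MD (MS)

theorem ms_smul (c : ℂ) (a : ℕ → ℂ) (N : ℕ) : MS (fun n => c * a n) N = c * MS a N := by
  unfold MS
  rw [Finset.mul_sum]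
  refine Finset.sum_congr rfl fun n _ => ?_
  ring

theorem st_ZOP (hZPH : Pool.Agent.Helper98.ZA.ST_ZPH) : Pool.Agent.Helper98.ZB.ST_ZOP := by
  intro Y _ _ _ _ ν _ S hS hU m G hm hG hper η hη
  refine ⟨(η / 3) ^ 2, by positivity, fun H hH y => ?_⟩
  -- the measurable version
  obtain ⟨G', hG'm, hGG'⟩ : ∃ G' : Y → ℂ, Measurable G' ∧ G =ᵐ[ν] G' :=
    ⟨hG.1.mk G, hG.1.stronglyMeasurable_mk.measurable, hG.1.ae_eq_mk⟩
  have hmp : MeasurePreserving S ν ν := hU.1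
  have hper' : ∀ᵐ y ∂ν, G' (S^[m] y) = G' y := by
    filter_upwards [hper, hGG', (hmp.iterate m).quasiMeasurePreserving.ae hGG'] with y h1 h2 h3
    rw [← h3, ← h2, h1]
  -- the bound
  obtain ⟨B, hB1, hB⟩ : ∃ B : ℝ, 1 ≤ B ∧ ∀ y, ‖H y‖ ≤ B :=
    ⟨max 1 ‖H‖, le_max_left _ _, fun y => (H.norm_coe_le_norm y).trans (le_max_right _ _)⟩
  have hB0 : 0 < B := lt_of_lt_of_le zero_lt_one hB1
  have hBc : (B : ℂ) ≠ 0 := by exact_mod_cast hB0.ne'
  have hnB : ‖((B : ℂ))⁻¹‖ = B⁻¹ := by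
    rw [norm_inv, Complex.norm_real, Real.norm_of_nonneg hB0.le]
  have h1 := hZPH Y ν S hS hU m ((B : ℂ)⁻¹ • H) (fun y => (B : ℂ)⁻¹ * G' y) (η / (3 * B)) hm
    (by positivity) (fun y => by
      rw [ContinuousMap.smul_apply, smul_eq_mul, norm_mul, hnB]
      rw [inv_mul_le_one₀ hB0]
      exact hB y)
    (hG'm.const_mul _) ((hG.ae_eq hGG').const_mul _)
    (by
      filter_upwards [hper'] with y hy
      rw [hy])
    (by
      have e1 : ∫ y, ‖((B : ℂ)⁻¹ • H) y - (B : ℂ)⁻¹ * G' y‖ ^ 2 ∂ν =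
          (B⁻¹) ^ 2 * ∫ y, ‖H y - G y‖ ^ 2 ∂ν := by
        rw [← integral_const_mul]
        refine integral_congr_ae ?_
        filter_upwards [hGG'] with y hy
        rw [ContinuousMap.smul_apply, smul_eq_mul, ← mul_sub, norm_mul, hnB, mul_pow, hy]
      rw [e1]
      calc B⁻¹ ^ 2 * ∫ y, ‖H y - G y‖ ^ 2 ∂ν ≤ B⁻¹ ^ 2 * (η / 3) ^ 2 :=
            mul_le_mul_of_nonneg_left hH (by positivity)
        _ = (η / (3 * B)) ^ 2 := by
            field_simp) y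
  filter_upwards [h1] with N hN
  have e2 : MS (fun n => ((B : ℂ)⁻¹ • H) (S^[n] y)) N = (B : ℂ)⁻¹ * MS (fun n => H (S^[n] y)) N := by
    rw [← ms_smul]
    rfl
  rw [e2, norm_mul, hnB] at hN
  have h3 : ‖MS (fun n => H (S^[n] y)) N‖ ≤ B * (3 * (η / (3 * B)) * N) := by
    rw [← div_le_iff₀' hB0, div_eq_inv_mul]
    exact hN
  refine h3.trans (le_of_eq ?_)
  field_simp

end Pool.Agent.Helper94.ZB
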